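import Pool.Agent.KS6_2.RX.U

/-!
# A Swiss cheese `X` for which `R(X)` has no bounded point derivations and is an analytic algebra

`R(X)` is the uniform closure on the compact set `X` of the rational functions with poles off `X`.
For every `ε > 0` there is a classical Swiss cheese `X` (the closed square `[-1, 1] ^ 2` minus
countably many open discs, whose closures are pairwise disjoint and lie in the open square) with
sum of the radii less than `ε` such that

* `R(X)` has no non-zero bounded point derivation at any point of `X`;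
* every function in `R(X)` which vanishes on a nonempty relatively open subset of `X` is zero
  (`R(X)` is an analytic algebra, the opposite of a regular algebra);
* in particular `R(X)` is not regular.
-/

set_option autoImplicit false
open Set Metric Complex

namespace Pool.Agent.Results.MP_7cb37e_an.UniqueContinuation

/-- **Absence of bounded point derivations and unique continuation.** For every `ε > 0` there is
a classical Swiss cheese `X` in the square with sum of the radii less than `ε` such that `R(X)` has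
no non-zero bounded point derivation at any point, and every function in `R(X)` which vanishes on
a nonempty relatively open subset of `X` vanishes identically; so `R(X)` is not regular. -/
theorem result (ε : ℝ) (hε : 0 < ε) :
    ∃ (ι : Type) (_ : Countable ι) (c : ι → ℂ) (ρ : ι → ℝ) (X : Set ℂ),
      -- `X` is a classical Swiss cheese
      (∀ i, 0 < ρ i ∧ closedBall (c i) (ρ i) ⊆ Ioo (-1) 1 ×ℂ Ioo (-1) 1) ∧
      (∀ i j, i ≠ j → Disjoint (closedBall (c i) (ρ i)) (closedBall (c j) (ρ j))) ∧
      Summable ρ ∧ ∑' i, ρ i < ε ∧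
      X = (Icc (-1) 1 ×ℂ Icc (-1) 1) \ ⋃ i, ball (c i) (ρ i) ∧ IsCompact X ∧ X.Nontrivial ∧
      -- the algebra `R(X)`
      ∀ R : Set C(X, ℂ),
        R = closure {g : C(X, ℂ) | ∃ p q : Polynomial ℂ,
              (∀ z ∈ X, q.eval z ≠ 0) ∧ ∀ z : X, g z = p.eval (z : ℂ) / q.eval (z : ℂ)} →
        -- it has no non-zero bounded point derivation
        (∀ (x : X) (D : C(X, ℂ) → ℂ),
            (∀ f ∈ R, ∀ g ∈ R, D (f + g) = D f + D g) →
            (∀ c : ℂ, ∀ f ∈ R, D (c • f) = c * D f) →
            (∀ f ∈ R, ∀ g ∈ R, D (f * g) = f x * D g + g x * D f) →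
            (∃ C : ℝ, ∀ f ∈ R, ∀ M : ℝ, (∀ z : X, ‖f z‖ ≤ M) → ‖D f‖ ≤ C * M) →
            ∀ f ∈ R, D f = 0) ∧
        -- unique continuation
        (∀ f ∈ R, ∀ U : Set X, IsOpen U → U.Nonempty → (∀ z ∈ U, f z = 0) → f = 0) ∧
        -- it is not regular
        ¬ ∀ F : Set X, IsClosed F → ∀ x : X, x ∉ F →
          ∃ f ∈ R, f x = 1 ∧ ∀ y ∈ F, f y = 0 := by
  obtain ⟨N, r, κ, e, G, h0⟩ := KS6_2.RX.ex_good2 (show 0 < ε / 16 by positivity)
  have hs : Summable fun p : KS6_2.RX.Idx N r => r p.1.1 :=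
    summable_of_sum_le (fun p => (G.r0 _).le) fun A => G.sums A
  have : CompactSpace (KS6_2.RX.XX N r) := isCompact_iff_compactSpace.1 KS6_2.RX.XX_compact
  have hu : ∀ f ∈ closure (KS6_2.RX.A0 (KS6_2.RX.XX N r) : Set C(KS6_2.RX.XX N r, ℂ)),
      ∀ U : Set (KS6_2.RX.XX N r), IsOpen U → U.Nonempty → (∀ z ∈ U, f z = 0) → f = 0 := by
    intro f hf U hU ⟨x, hx⟩ h
    obtain ⟨V, hV, rfl⟩ := isOpen_induced_iff.1 hU
    exact G.uniq hf hV ⟨x.1, hx, x.2⟩ fun z hz => h z hz
  refine ⟨KS6_2.RX.Idx N r, inferInstance, fun p => KS6_2.RX.gp (N p.1.1) p.1.2,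
    fun p => r p.1.1, KS6_2.RX.XX N r, fun p => ⟨G.r0 _, G.disc p⟩, fun p q h => G.disj' h, hs, ?_,
    G.eqX, KS6_2.RX.XX_compact, ⟨0, G.zero, 1, G.one, zero_ne_one⟩, ?_⟩
  · have := hs.tsum_le_of_sum_le fun A => G.sums A
    linarith
  · rintro R rfl
    refine ⟨fun x D => KS6_2.RX.noD (KS6_2.RX.A0 _).topologicalClosure rfl x (G.big x.2) D,
      hu, fun hreg => ?_⟩
    obtain ⟨f, hf, f1, f2⟩ := hreg {z | z.1.re ≤ 1 / 2} (isClosed_le (by fun_prop) continuous_const)
      ⟨1, G.one⟩ (by norm_num)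
    have := hu f hf {z | z.1.re < 1 / 2} (isOpen_lt (by fun_prop) continuous_const)
      ⟨⟨0, G.zero⟩, by norm_num⟩ fun z hz =>
        f2 z (show z.1.re ≤ 1 / 2 from le_of_lt (show z.1.re < 1 / 2 from hz))
    rw [this] at f1
    simp at f1

end Pool.Agent.Results.MP_7cb37e_an.UniqueContinuation
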